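import Pool.Agent.K1H81.HV.Defs

/-!
# Double covers of projective spaces of even dimension: definitions
-/

set_option autoImplicit false

namespace Pool.Agent.K1H81.DC

open Finset MeasureTheory ProbabilityTheory
open Pool.Agent.Y722.HS (Mon form IsSmooth)

/-- The number of the points of the double cover `y² = ∑ c_μ x^μ` of the projective space with
coordinates in the field with `p ^ k` elements, for `p` prime (the form has even degree `d`, `y` has the
weight `d / 2`): the number of the pairs `(x, y)`, `x ≠ 0`, divided by `p ^ k - 1`. -/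
noncomputable def numPoints {n d : ℕ} (c : Mon n d → ℤ) (p k : ℕ) : ℝ :=
  if h : p.Prime then
    haveI : Fact p.Prime := ⟨h⟩
    (Nat.card {x : (Fin (n + 1) → GaloisField p k) × GaloisField p k // x.1 ≠ 0 ∧
      x.2 ^ 2 = MvPolynomial.eval x.1 (form fun μ => (c μ : GaloisField p k))} : ℝ) /
        ((p : ℝ) ^ k - 1)
  else 0

/-- The trace of the `k`-th power of Frobenius on the primitive part of `H^{2m}(X)(m)`, `X` the
double cover of `ℙ^{2m}`. -/
noncomputable def trace {m d : ℕ} (c : Mon (2 * m) d → ℤ) (p k : ℕ) : ℝ :=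
  (numPoints c p k - ∑ i ∈ range (2 * m + 1), ((p : ℝ) ^ k) ^ i) / ((p : ℝ) ^ k) ^ m

/-- The double cover `y² = ∑ c_μ x^μ` has good reduction at the prime `p`: `p` is odd and the reduction
of the branch locus is smooth. -/
def GoodReduction {n d : ℕ} (c : Mon n d → ℤ) (p : ℕ) : Prop :=
  p ≠ 2 ∧ K1H81.HV.GoodReduction c p

end Pool.Agent.K1H81.DC
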