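import Pool.Agent.K1H81.HV.Good
import Pool.Agent.K1H81.DC.Defs

/-!
# Double covers: local definitions and the statements of the pieces
-/

set_option autoImplicit false

namespace Pool.Agent.K1H81.DC

open Finset hiding val
open MeasureTheory ProbabilityTheory
open Pool.Agent.Y722.HS Pool.Agent.X280.HG Pool.Agent.X280.BP Pool.Agent.X280.UC
open Pool.Agent.K1H81.HV (KK NV PF DD ev Fr deg Dep WD mean)

open Classical in
/-- The quadratic character of the subfield of `KK p` with `p ^ k` elements. -/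
noncomputable def qc (p : ℕ) [Fact p.Prime] (k : ℕ) (y : KK p) : ℝ :=
  if y = 0 then 0 else if y ^ ((p ^ k - 1) / 2) = 1 then 1 else -1

/-- The moments of the quadratic character. -/
noncomputable def ebq (q : ℝ) (k : ℕ) : ℝ := if k = 0 then 1 else if Even k then 1 - 1 / q else 0

/-- The trace. -/
noncomputable def tq (m d p : ℕ) [Fact p.Prime] (k : ℕ) (c : Mon (2 * m) d → ZMod p) : ℝ :=
  (∑ v ∈ PF p (2 * m) k, qc p k (ev c v)) / ((p : ℝ) ^ k) ^ m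

/-- The main part of the trace. -/
noncomputable def tm (m d p : ℕ) [Fact p.Prime] (k : ℕ) (c : Mon (2 * m) d → ZMod p) : ℝ :=
  (∑ j ∈ k.divisors with Odd (k / j), ∑ v ∈ DD p (2 * m) j, qc p j (ev c v) +
    ∑ j ∈ k.divisors with Even (k / j), ((DD p (2 * m) j).card : ℝ)) / ((p : ℝ) ^ k) ^ m

/-- piece QS: moments of the quadratic character -/
def S_QS : Prop := ∀ (p : ℕ) [Fact p.Prime], p ≠ 2 → ∀ j : ℕ, 0 < j → ∀ Y : Finset (KK p),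
  (∀ y, y ∈ Y ↔ y ^ p ^ j = y) → ∀ k : ℕ,
    ∑ y ∈ Y, qc p j y ^ k = (p : ℝ) ^ j * ebq ((p : ℝ) ^ j) k

/-- piece QP: the quadratic characters of an extension, and invariance -/
def S_QP : Prop := ∀ (p : ℕ) [Fact p.Prime], p ≠ 2 → ∀ j : ℕ, 0 < j → ∀ y : KK p,
  y ^ p ^ j = y → (∀ l : ℕ, 0 < l → qc p (j * l) y = qc p j y ^ l) ∧ qc p j (y ^ p) = qc p j y

/-- piece ONE: adaptation of `K1H81.HV.one_degree` (eb -> ebq, 2 * m + 1 -> 2 * m) -/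
def S_ONE : Prop := ∀ (j b : ℕ), 1 ≤ j → ∀ K : ℝ, 0 ≤ K → ∃ C : ℝ, 0 ≤ C ∧
    ∀ (m : ℕ), 1 ≤ m → ∀ p : ℝ, 2 ≤ p → ∀ N : ℕ,
    |(j * N : ℝ) - (p ^ j) ^ (2 * m)| ≤ K * (p ^ j) ^ (2 * m) / p →
    |√j ^ b * ME (ebq (p ^ j)) N b / ((p ^ j) ^ m) ^ b - gm b| ≤ C / p

/-- piece IND: independence, adaptation of `K1H81.HV.EM_ind` -/
def S_IND : Prop := ∀ (p : ℕ) [Fact p.Prime] (n d D : ℕ) (x : NV p n)
  (h : (Mon n d → ZMod p) → ℝ), Dep x D h → D + deg x ≤ d + 1 → ∀ (Y : Finset (KK p)),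
  (∀ y, y ∈ Y ↔ y ^ p ^ deg x = y) → ∀ F : KK p → ℝ,
    EM p (fun c => F (ev c x) * h c) = 1 / (p : ℝ) ^ deg x * (∑ y ∈ Y, F y) * EM p h

open Classical in
/-- piece ZC: zeros of a form (Schwartz-Zippel) -/
def S_ZC : Prop := ∀ n d : ℕ, 1 ≤ n → ∃ C : ℝ, 0 ≤ C ∧ ∀ (p : ℕ) [Fact p.Prime] (k : ℕ), 0 < k →
  ∀ c : Mon n d → ZMod p, c ≠ 0 →
    (((PF p n k).filter fun v => ev c v = 0).card : ℝ) ≤ C * ((p : ℝ) ^ k) ^ (n - 1)

open Classical in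
/-- piece NEAR: the trace and its main part (uses `S_QP`, `S_ZC`) -/
def S_NEAR : Prop := ∀ m d r : ℕ, 1 ≤ m → ∃ C : ℝ, 0 ≤ C ∧ ∀ (p : ℕ) [Fact p.Prime], p ≠ 2 →
  ∀ k ∈ Icc 1 r, ∀ c : Mon (2 * m) d → ZMod p,
    |tq m d p k c - tm m d p k c| ≤ C * (if c = 0 then 1 else 1 / (p : ℝ)) ∧
    (c = 0 → |tm m d p k c| ≤ C)

/-- piece PERT: perturbation of a polynomial -/
def S_PERT : Prop := ∀ (r D : ℕ) (φ : MvPolynomial (Fin r) ℝ), WD D φ → ∀ B : ℝ, 0 ≤ B →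
  (∃ Ψ : MvPolynomial (Fin r) ℝ, WD (2 * D) Ψ ∧ ∀ (x y : Fin r → ℝ) (η : ℝ), 0 ≤ η → η ≤ 1 →
    (∀ i, |x i - y i| ≤ B * η) →
    |MvPolynomial.eval x φ - MvPolynomial.eval y φ| ≤ η * MvPolynomial.eval y Ψ) ∧
  (∃ Ψ : MvPolynomial (Fin r) ℝ, WD (4 * D) Ψ ∧ ∀ (x y : Fin r → ℝ) (η : ℝ), 0 ≤ η → η ≤ 1 →
    (∀ i, |x i - y i| ≤ B * η) →
    (MvPolynomial.eval x φ - MvPolynomial.eval y φ) ^ 4 ≤ η * MvPolynomial.eval y Ψ)

/-- piece MV (helper81): the mean values of polynomials in the main parts -/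
def S_MV : Prop := ∀ (r D : ℕ) (φ : MvPolynomial (Fin r) ℝ), WD D φ → ∃ C : ℝ, 0 ≤ C ∧
    ∀ (m d : ℕ), 1 ≤ m → D ≤ d + 1 → ∀ (p : ℕ) [Fact p.Prime], p ≠ 2 →
    |EM p (fun c : Mon (2 * m) d → ZMod p =>
      MvPolynomial.eval (fun i : Fin r => tm m d p ((i : ℕ) + 1) c) φ) - mean φ| ≤ C / p

open Classical in
/-- The polynomial in the traces, for all moduli. -/
noncomputable def UU {r : ℕ} (φ : MvPolynomial (Fin r) ℝ) (m d p : ℕ)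
    (c : Mon (2 * m) d → ZMod p) : ℝ :=
  if h : p.Prime ∧ p ≠ 2 then
    haveI : Fact p.Prime := ⟨h.1⟩
    MvPolynomial.eval (fun i : Fin r => tq m d p ((i : ℕ) + 1) c) φ
  else 0

/-- piece LD: the local data (uses `S_MV`, `S_NEAR`, `S_PERT`) -/
def S_LD : Prop := ∀ (r D : ℕ) (φ : MvPolynomial (Fin r) ℝ), WD D φ → ∀ (m d : ℕ),
    1 ≤ m → 4 * D ≤ d + 1 → ∃ C : ℝ, LD (UU φ m d) (mean φ) (mean (φ ^ 2)) C

/-- piece TR: the number of points and the quadratic character -/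
def S_TR : Prop := ∀ (m d : ℕ), Even d → ∀ (c : Mon (2 * m) d → ℤ) (p k : ℕ) [Fact p.Prime],
  p ≠ 2 → 0 < k → trace c p k = tq m d p k (red p c)

open Classical in
/-- piece LAW: the normal law (uses `S_LD`, `S_TR`) -/
def S_LAW : Prop := ∀ {r : ℕ} (φ : MvPolynomial (Fin r) ℝ), (∀ a, φ ≠ MvPolynomial.C a) →
    ∀ (m d : ℕ), 1 ≤ m → 1 ≤ d → Even d →
    4 * (φ.weightedTotalDegree fun i : Fin r => (i : ℕ) + 1) ≤ d + 1 → ∀ (δ : ℝ), 0 < δ →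
    ∀ (u ε : ℝ), 0 < ε →
    ∃ K : ℕ, ∀ (P : Finset ℕ) (w : ℕ → ℝ) (y H : ℕ), (∀ p ∈ P, p.Prime ∧ p ≤ y) →
      (∀ p ∈ P, |w p| ≤ 1) → δ * P.card ≤ ∑ p ∈ P, w p ^ 2 → K ≤ P.card → y ^ K ≤ H →
      |({c : Mon (2 * m) d → ℤ | (∀ μ, |c μ| ≤ H) ∧
        ∑ p ∈ P with GoodReduction c p,
          w p * (MvPolynomial.eval (fun k : Fin r => trace c p ((k : ℕ) + 1)) φ - mean φ) ≤
          u * √((mean (φ ^ 2) - mean φ ^ 2) * ∑ p ∈ P, w p ^ 2)}.ncard : ℝ) /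
        (2 * H + 1 : ℝ) ^ Fintype.card (Mon (2 * m) d) -
          (gaussianReal 0 1).real (Set.Iic u)| ≤ ε

end Pool.Agent.K1H81.DC
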