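import Pool.Agent.K1H81.DC.Stm

/-!
# The local data for double covers
-/

set_option autoImplicit false
set_option linter.unusedSectionVars false

namespace Pool.Agent.K1H81.DC

open Finset hiding val
open Pool.Agent.Y722.HS Pool.Agent.X280.HG Pool.Agent.X280.BP Pool.Agent.X280.UC Pool.Agent.K1H81.HV

theorem EM_zero (m d p : ℕ) [hp : Fact p.Prime] :
    EM p (fun c : Mon (2 * m) d → ZMod p => if c = 0 then (1 : ℝ) else 0) ≤ 1 / p := by
  classical
  have hne : Nonempty (Mon (2 * m) d) := by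
    refine ⟨⟨fun i => if i = 0 then ⟨d, by omega⟩ else 0, ?_⟩⟩
    rw [Finset.sum_eq_single 0]
    · simp
    · intro i _ hi
      simp [hi]
    · simp
  have h1 : 1 ≤ Fintype.card (Mon (2 * m) d) := Fintype.card_pos
  have hp1 : (1 : ℝ) ≤ p := by exact_mod_cast hp.out.one_lt.le
  have hp0 : (0 : ℝ) < p := by linarith
  unfold EM
  have e : ∑ c : Mon (2 * m) d → ZMod p, (if c = 0 then (1 : ℝ) else 0) = 1 := by
    rw [Finset.sum_ite_eq' Finset.univ (0 : Mon (2 * m) d → ZMod p) (fun _ => (1 : ℝ))]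
    simp
  have e2 : ∑ c : Mon (2 * m) d → ZMod p, (if c = 0 then (1 : ℝ) else 0) = 1 := by
    convert e
  rw [e2]
  refine one_div_le_one_div_of_le hp0 ?_
  calc (p : ℝ) = (p : ℝ) ^ 1 := (pow_one _).symm
    _ ≤ _ := pow_le_pow_right₀ hp1 h1

/-- A bound for a polynomial at bounded arguments. -/
noncomputable def bd {r : ℕ} (Ψ : MvPolynomial (Fin r) ℝ) (B : ℝ) : ℝ :=
  ∑ α ∈ Ψ.support, |Ψ.coeff α| * ∏ i, B ^ α i

theorem abs_eval_le {r : ℕ} (Ψ : MvPolynomial (Fin r) ℝ) (B : ℝ) (x : Fin r → ℝ)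
    (hx : ∀ i, |x i| ≤ B) : |MvPolynomial.eval x Ψ| ≤ bd Ψ B := by
  rw [eval_sum]
  refine (Finset.abs_sum_le_sum_abs _ _).trans (Finset.sum_le_sum fun α _ => ?_)
  rw [abs_mul, Finset.abs_prod]
  refine mul_le_mul_of_nonneg_left ?_ (abs_nonneg _)
  refine Finset.prod_le_prod (fun i _ => abs_nonneg _) fun i _ => ?_
  rw [abs_pow]
  exact pow_le_pow_left₀ (abs_nonneg _) (hx i) _

theorem bd_nonneg {r : ℕ} (Ψ : MvPolynomial (Fin r) ℝ) {B : ℝ} (hB : 0 ≤ B) : 0 ≤ bd Ψ B :=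
  Finset.sum_nonneg fun α _ => mul_nonneg (abs_nonneg _) (Finset.prod_nonneg fun i _ => by positivity)

open Classical in
theorem core {r : ℕ} (Ψ : MvPolynomial (Fin r) ℝ) (m d : ℕ) (B E : ℝ) (hB0 : 0 ≤ B) (hE0 : 0 ≤ E)
    (p : ℕ) [hp : Fact p.Prime] (hM : ∀ k ∈ Icc 1 r, |tm m d p k 0| ≤ B)
    (hE : |EM p (fun c : Mon (2 * m) d → ZMod p =>
      MvPolynomial.eval (fun i : Fin r => tm m d p ((i : ℕ) + 1) c) Ψ) - mean Ψ| ≤ E / p)
    (X : (Mon (2 * m) d → ZMod p) → ℝ)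
    (hX : ∀ c, X c ≤ (if c = 0 then 1 else 1 / (p : ℝ)) *
      MvPolynomial.eval (fun i : Fin r => tm m d p ((i : ℕ) + 1) c) Ψ) :
    EM p X ≤ (|mean Ψ| + E + bd Ψ B) / p := by
  have hp1 : (1 : ℝ) ≤ p := by exact_mod_cast hp.out.one_lt.le
  have hp0 : (0 : ℝ) < p := by linarith
  have hbd := bd_nonneg Ψ hB0
  have h1 : ∀ c, X c ≤ 1 / (p : ℝ) *
      MvPolynomial.eval (fun i : Fin r => tm m d p ((i : ℕ) + 1) c) Ψ +
      bd Ψ B * (if c = 0 then 1 else 0) := by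
    intro c
    refine (hX c).trans ?_
    by_cases hc : c = 0
    · subst hc
      rw [if_pos rfl, if_pos rfl, one_mul, mul_one]
      have h2 := abs_eval_le Ψ B (fun i : Fin r => tm m d p ((i : ℕ) + 1) 0) fun i =>
        hM _ (Finset.mem_Icc.2 ⟨by omega, by have := i.2; omega⟩)
      obtain ⟨z, hz⟩ : ∃ z, MvPolynomial.eval (fun i : Fin r => tm m d p ((i : ℕ) + 1) 0) Ψ = z :=
        ⟨_, rfl⟩
      rw [hz] at h2 ⊢
      have h3 : 0 < 1 / (p : ℝ) := by positivity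
      have h4 : 1 / (p : ℝ) ≤ 1 := by rw [div_le_one hp0]; exact hp1
      have h5 : (1 - 1 / (p : ℝ)) * z ≤ bd Ψ B := by
        calc (1 - 1 / (p : ℝ)) * z ≤ (1 - 1 / (p : ℝ)) * |z| :=
              mul_le_mul_of_nonneg_left (le_abs_self z) (by linarith)
          _ ≤ 1 * |z| := mul_le_mul_of_nonneg_right (by linarith) (abs_nonneg _)
          _ ≤ _ := by rw [one_mul]; exact h2
      linarith
    · rw [if_neg hc, if_neg hc, mul_zero, add_zero]
  refine (EM_monoV p _ _ h1).trans ?_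
  rw [EM_add', EM_mul', EM_mul']
  have h2 : EM p (fun c : Mon (2 * m) d → ZMod p => if c = 0 then (1 : ℝ) else 0) ≤ 1 / p := by
    have := EM_zero m d p
    convert this
  have h3 := (abs_le.mp hE).2
  have h4 : E / p ≤ E := div_le_self hE0 hp1
  have h5 := le_abs_self (mean Ψ)
  obtain ⟨y, hy⟩ : ∃ y, EM p (fun c : Mon (2 * m) d → ZMod p =>
      MvPolynomial.eval (fun i : Fin r => tm m d p ((i : ℕ) + 1) c) Ψ) = y := ⟨_, rfl⟩
  rw [hy] at h3 ⊢
  have h6 : y ≤ |mean Ψ| + E := by linarith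
  calc 1 / (p : ℝ) * y + bd Ψ B * EM p (fun c : Mon (2 * m) d → ZMod p => if c = 0 then (1 : ℝ) else 0)
      ≤ 1 / (p : ℝ) * (|mean Ψ| + E) + bd Ψ B * (1 / p) := by gcongr
    _ = _ := by ring

theorem t_LD (hMV : S_MV) (hN : S_NEAR) (hP : S_PERT) : S_LD := by
  classical
  intro r D φ hD m d hm hd
  obtain ⟨B, hB0, hB⟩ := hN m d r hm
  obtain ⟨⟨Ψ1, hΨ1, hp1⟩, ⟨Ψ4, hΨ4, hp4⟩⟩ := hP r D φ hD B hB0
  obtain ⟨⟨Ψ2, hΨ2, hp2⟩, -⟩ := hP r (2 * D) (φ ^ 2) (hD.pow 2) B hB0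
  obtain ⟨C1, hC10, hC1⟩ := hMV r D φ hD
  obtain ⟨C2, hC20, hC2⟩ := hMV r (2 * D) (φ ^ 2) (hD.pow 2)
  obtain ⟨C4, hC40, hC4⟩ := hMV r (4 * D) (φ ^ 4) (hD.pow 4)
  obtain ⟨E1, hE10, hE1⟩ := hMV r (2 * D) Ψ1 hΨ1
  obtain ⟨E2, hE20, hE2⟩ := hMV r (2 * (2 * D)) Ψ2 hΨ2
  obtain ⟨E4, hE40, hE4⟩ := hMV r (4 * D) Ψ4 hΨ4
  have hb1 := bd_nonneg Ψ1 hB0
  have hb2 := bd_nonneg Ψ2 hB0
  have hb4 := bd_nonneg Ψ4 hB0
  have ha1 := abs_nonneg (mean Ψ1)
  have ha2 := abs_nonneg (mean Ψ2)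
  have ha4 := abs_nonneg (mean Ψ4)
  have hm1 := abs_nonneg (mean φ)
  have hm2 := abs_nonneg (mean (φ ^ 2))
  have hm4 := abs_nonneg (mean (φ ^ 4))
  refine ⟨(C1 + (|mean Ψ1| + E1 + bd Ψ1 B)) + (C2 + (|mean Ψ2| + E2 + bd Ψ2 B)) +
    (8 * (C4 + |mean (φ ^ 4)|) + 8 * (|mean Ψ4| + E4 + bd Ψ4 B)) + 2 * |mean φ| +
    2 * |mean (φ ^ 2)|, ?_⟩
  obtain ⟨G1, hG1⟩ : ∃ G, |mean Ψ1| + E1 + bd Ψ1 B = G := ⟨_, rfl⟩
  obtain ⟨G2, hG2⟩ : ∃ G, |mean Ψ2| + E2 + bd Ψ2 B = G := ⟨_, rfl⟩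
  obtain ⟨G4, hG4⟩ : ∃ G, |mean Ψ4| + E4 + bd Ψ4 B = G := ⟨_, rfl⟩
  have hG10 : 0 ≤ G1 := by rw [← hG1]; positivity
  have hG20 : 0 ≤ G2 := by rw [← hG2]; positivity
  have hG40 : 0 ≤ G4 := by rw [← hG4]; positivity
  rw [hG1, hG2, hG4]
  obtain ⟨C, hC⟩ : ∃ C, (C1 + G1) + (C2 + G2) + (8 * (C4 + |mean (φ ^ 4)|) + 8 * G4) +
    2 * |mean φ| + 2 * |mean (φ ^ 2)| = C := ⟨_, rfl⟩
  rw [hC]
  have hC0 : 0 ≤ C := by rw [← hC]; positivity
  -- the polynomials near to each other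
  have key : ∀ (p : ℕ) [Fact p.Prime], p ≠ 2 → ∀ (c : Mon (2 * m) d → ZMod p) (i : Fin r),
      |tq m d p ((i : ℕ) + 1) c - tm m d p ((i : ℕ) + 1) c| ≤
        B * (if c = 0 then 1 else 1 / (p : ℝ)) := fun p _ h2 c i =>
    (hB p h2 _ (Finset.mem_Icc.2 ⟨by omega, by have := i.2; omega⟩) c).1
  have key2 : ∀ (p : ℕ) [Fact p.Prime], p ≠ 2 → ∀ k ∈ Icc 1 r, |tm m d p k 0| ≤ B :=
    fun p _ h2 k hk => (hB p h2 k hk 0).2 rfl
  have hη : ∀ (p : ℕ) [Fact p.Prime] (c : Mon (2 * m) d → ZMod p),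
      0 ≤ (if c = 0 then (1 : ℝ) else 1 / (p : ℝ)) ∧ (if c = 0 then (1 : ℝ) else 1 / (p : ℝ)) ≤ 1 := by
    intro p hp c
    have h1 : (1 : ℝ) ≤ p := by exact_mod_cast hp.out.one_lt.le
    split_ifs
    · exact ⟨zero_le_one, le_rfl⟩
    · exact ⟨by positivity, by rw [div_le_one (by linarith)]; exact h1⟩
  have hUodd : ∀ (p : ℕ) [hp : Fact p.Prime], p ≠ 2 → UU φ m d p = fun c : Mon (2 * m) d → ZMod p =>
      MvPolynomial.eval (fun i : Fin r => tq m d p ((i : ℕ) + 1) c) φ := by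
    intro p hp h2
    funext c
    unfold UU
    rw [dif_pos ⟨hp.out, h2⟩]
  have hU2 : ∀ (c : Mon (2 * m) d → ZMod 2), UU φ m d 2 c = 0 := by
    intro c
    unfold UU
    rw [dif_neg]
    rintro ⟨-, h⟩
    exact h rfl
  refine ⟨hC0, fun p hp inst => ?_, fun p hp inst => ?_, fun p hp inst => ?_⟩
  · have hpf : Fact p.Prime := ⟨hp⟩
    have hpp : (0 : ℝ) < p := by exact_mod_cast hp.pos
    by_cases h2 : p = 2
    · subst h2
      have e : EM 2 (UU φ m d 2) = 0 := by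
        have : UU φ m d 2 = fun _ => 0 := funext hU2
        rw [this, EM_const']
      rw [e, zero_sub, abs_neg, le_div_iff₀ hpp]
      push_cast
      rw [← hC]
      linarith
    · have h1 := hC1 m d hm (by omega) p h2
      have h3 := core Ψ1 m d B E1 hB0 hE10 p (key2 p h2) (hE1 m d hm (by omega) p h2)
        (fun c => |MvPolynomial.eval (fun i : Fin r => tq m d p ((i : ℕ) + 1) c) φ -
          MvPolynomial.eval (fun i : Fin r => tm m d p ((i : ℕ) + 1) c) φ|)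
        fun c => hp1 _ _ _ (hη p c).1 (hη p c).2 (key p h2 c)
      rw [hG1] at h3
      rw [hUodd p h2]
      have h4 : |EM p (fun c : Mon (2 * m) d → ZMod p =>
          MvPolynomial.eval (fun i : Fin r => tq m d p ((i : ℕ) + 1) c) φ) -
          EM p (fun c : Mon (2 * m) d → ZMod p =>
          MvPolynomial.eval (fun i : Fin r => tm m d p ((i : ℕ) + 1) c) φ)| ≤ G1 / p := by
        rw [← EM_sub']
        exact (abs_EM_le_EM p _ _ fun c => le_rfl).trans h3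
      have h5 : C1 / p + G1 / p ≤ C / p := by
        rw [← add_div]
        gcongr
        rw [← hC]
        linarith
      have h6 := (abs_sub_le _ _ _).trans (add_le_add h4 h1)
      linarith
  · have hpf : Fact p.Prime := ⟨hp⟩
    have hpp : (0 : ℝ) < p := by exact_mod_cast hp.pos
    by_cases h2 : p = 2
    · subst h2
      have e : EM 2 (fun c => UU φ m d 2 c ^ 2) = 0 := by
        have : (fun c => UU φ m d 2 c ^ 2) = fun _ => (0 : ℝ) :=
          funext fun c => by rw [hU2]; norm_num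
        rw [this, EM_const']
      rw [e, zero_sub, abs_neg, le_div_iff₀ hpp]
      push_cast
      rw [← hC]
      linarith
    · have h1 := hC2 m d hm (by omega) p h2
      have h3 := core Ψ2 m d B E2 hB0 hE20 p (key2 p h2) (hE2 m d hm (by omega) p h2)
        (fun c => |MvPolynomial.eval (fun i : Fin r => tq m d p ((i : ℕ) + 1) c) (φ ^ 2) -
          MvPolynomial.eval (fun i : Fin r => tm m d p ((i : ℕ) + 1) c) (φ ^ 2)|)
        fun c => hp2 _ _ _ (hη p c).1 (hη p c).2 (key p h2 c)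
      rw [hG2] at h3
      have e0 : (fun c => UU φ m d p c ^ 2) = fun c : Mon (2 * m) d → ZMod p =>
          MvPolynomial.eval (fun i : Fin r => tq m d p ((i : ℕ) + 1) c) (φ ^ 2) := by
        funext c
        rw [hUodd p h2, map_pow]
      rw [e0]
      have h4 : |EM p (fun c : Mon (2 * m) d → ZMod p =>
          MvPolynomial.eval (fun i : Fin r => tq m d p ((i : ℕ) + 1) c) (φ ^ 2)) -
          EM p (fun c : Mon (2 * m) d → ZMod p =>
          MvPolynomial.eval (fun i : Fin r => tm m d p ((i : ℕ) + 1) c) (φ ^ 2))| ≤ G2 / p := by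
        rw [← EM_sub']
        exact (abs_EM_le_EM p _ _ fun c => le_rfl).trans h3
      have h5 : C2 / p + G2 / p ≤ C / p := by
        rw [← add_div]
        gcongr
        rw [← hC]
        linarith
      have h6 := (abs_sub_le _ _ _).trans (add_le_add h4 h1)
      linarith
  · have hpf : Fact p.Prime := ⟨hp⟩
    have hpp : (0 : ℝ) < p := by exact_mod_cast hp.pos
    have hp1' : (1 : ℝ) ≤ p := by exact_mod_cast hp.one_lt.le
    by_cases h2 : p = 2
    · subst h2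
      have e : EM 2 (fun c => UU φ m d 2 c ^ 4) = 0 := by
        have : (fun c => UU φ m d 2 c ^ 4) = fun _ => (0 : ℝ) :=
          funext fun c => by rw [hU2]; norm_num
        rw [this, EM_const']
      rw [e]
      exact hC0
    · have h1 := hC4 m d hm hd p h2
      have h3 := core Ψ4 m d B E4 hB0 hE40 p (key2 p h2) (hE4 m d hm hd p h2)
        (fun c => (MvPolynomial.eval (fun i : Fin r => tq m d p ((i : ℕ) + 1) c) φ -
          MvPolynomial.eval (fun i : Fin r => tm m d p ((i : ℕ) + 1) c) φ) ^ 4)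
        fun c => hp4 _ _ _ (hη p c).1 (hη p c).2 (key p h2 c)
      rw [hG4] at h3
      have h4 : EM p (fun c => UU φ m d p c ^ 4) ≤ EM p (fun c : Mon (2 * m) d → ZMod p =>
          8 * MvPolynomial.eval (fun i : Fin r => tm m d p ((i : ℕ) + 1) c) (φ ^ 4) +
          8 * (MvPolynomial.eval (fun i : Fin r => tq m d p ((i : ℕ) + 1) c) φ -
          MvPolynomial.eval (fun i : Fin r => tm m d p ((i : ℕ) + 1) c) φ) ^ 4) := by
        refine EM_monoV p _ _ fun c => ?_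
        rw [hUodd p h2, map_pow]
        obtain ⟨x, hx⟩ : ∃ x, MvPolynomial.eval (fun i : Fin r => tq m d p ((i : ℕ) + 1) c) φ = x :=
          ⟨_, rfl⟩
        obtain ⟨y, hy⟩ : ∃ y, MvPolynomial.eval (fun i : Fin r => tm m d p ((i : ℕ) + 1) c) φ = y :=
          ⟨_, rfl⟩
        beta_reduce
        rw [hx, hy]
        have e1 : x = y + (x - y) := by ring
        obtain ⟨z, hz⟩ : ∃ z, x - y = z := ⟨_, rfl⟩
        rw [hz]
        rw [hz] at e1
        rw [e1]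
        nlinarith [sq_nonneg (y - z), sq_nonneg (y + z), sq_nonneg (y ^ 2 - z ^ 2),
          sq_nonneg ((y - z) ^ 2), sq_nonneg (y * (y - z)), sq_nonneg (z * (y - z)),
          mul_nonneg (sq_nonneg (y - z)) (add_nonneg (sq_nonneg y) (sq_nonneg z)),
          mul_nonneg (sq_nonneg (y - z)) (sq_nonneg (y + z))]
      refine h4.trans ?_
      rw [EM_add', EM_mul', EM_mul']
      have h5 := (abs_le.mp h1).2
      have h6 : C4 / p ≤ C4 := div_le_self hC40 hp1'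
      have h7 := le_abs_self (mean (φ ^ 4))
      have h8 : G4 / p ≤ G4 := div_le_self hG40 hp1'
      rw [← hC]
      linarith

end Pool.Agent.K1H81.DC
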