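import Pool.Agent.K1H81.DC.Near
import Pool.Agent.K1H81.DC.Ld
import Pool.Agent.K1H37.DC.QS
import Pool.Agent.K1H1.DC.Qp
import Pool.Agent.K1H20.DC.One
import Pool.Agent.K1H50.DC.Tr
import Pool.Agent.K1H33.DC.Ind
import Pool.Agent.K1H99.DC.Zc
import Pool.Agent.K1H3.DC.Pert
import Pool.Agent.K1H6.DC.Law

/-!
# The normal law for double covers: assembly
-/

set_option autoImplicit false

namespace Pool.Agent.K1H81.DC

theorem law : S_LAW :=
  Pool.Agent.K1H6.DC.t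
    (t_LD (t_MV Pool.Agent.K1H37.DC.t Pool.Agent.K1H1.DC.Qp.t Pool.Agent.K1H33.DC.t
      Pool.Agent.K1H20.DC.t) (t_NEAR Pool.Agent.K1H1.DC.Qp.t Pool.Agent.K1H99.DC.t_ZC)
      Pool.Agent.K1H3.DC.t_PERT) Pool.Agent.K1H50.DC.t

end Pool.Agent.K1H81.DC
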