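import Pool.Agent.K1H81.DC.Stm

/-!
# Joint moments of the sums of the quadratic character over closed points
-/

set_option autoImplicit false
set_option linter.unusedSectionVars false

namespace Pool.Agent.K1H81.DC

open Finset hiding val
open Pool.Agent.Y722.HS Pool.Agent.X280.HG Pool.Agent.X280.BP Pool.Agent.K1H81.HV

theorem adm_ebq {q : ℝ} (hq : 1 ≤ q) : Adm (ebq q) (1 - 1 / q) := by
  have hq0 : 0 < q := by linarith
  have h1 : 1 / q ≤ 1 := by rw [div_le_one hq0]; exact hq
  have h0 : 0 ≤ 1 / q := by positivity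
  have h2 : 0 ≤ 1 - 1 / q := by linarith
  refine ⟨?_, ?_, ?_, fun k hk => ?_, h2, by linarith⟩
  · unfold ebq; rw [if_pos rfl]
  · unfold ebq; rw [if_neg one_ne_zero, if_neg (by decide)]
  · unfold ebq; rw [if_neg (by norm_num), if_pos (by decide)]
  · unfold ebq
    rw [if_neg (by omega)]
    split_ifs
    · rw [abs_of_nonneg h2]
    · rw [abs_zero]; exact h2

variable {p : ℕ} [hp : Fact p.Prime] {n d : ℕ}

/-- The quadratic character at a point. -/
noncomputable def zq (x : NV p n) (c : Mon n d → ZMod p) : ℝ := qc p (deg x) (ev c x)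

theorem zq_Fr (hp2 : p ≠ 2) (hQP : S_QP) (x : NV p n) (c : Mon n d → ZMod p) :
    zq (Fr x) c = zq x c := by
  unfold zq
  rw [deg_Fr, ev_Fr]
  exact (hQP p hp2 (deg x) (deg_pos x) (ev c x) (ev_fix c x)).2

variable {x : NV p n}

theorem dep_zq {t : NV p n} (ht : ∀ i, Fr^[i] t ≠ x) : Dep (d := d) x (deg t) (zq t) := by
  classical
  refine Dep.base ((range (deg t)).image fun i => Fr^[i] t) _ (fun v hv => ?_) ?_
    (Finset.card_image_le.trans (Finset.card_range _).le) fun c b hb => ?_
  · obtain ⟨i, hi, rfl⟩ := Finset.mem_image.1 hv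
    rw [← Function.iterate_succ_apply' Fr i t]
    refine Finset.mem_image.2 ⟨(i + 1) % deg t, Finset.mem_range.2 (Nat.mod_lt _ (deg_pos t)), ?_⟩
    exact Function.iterate_mod_minimalPeriod_eq (f := Fr) (x := t) (n := i + 1)
  · intro h
    obtain ⟨i, -, hi⟩ := Finset.mem_image.1 h
    exact ht i hi
  · have h1 : ev b t = 0 := hb t (Finset.mem_image.2 ⟨0, Finset.mem_range.2 (deg_pos t), rfl⟩)
    unfold zq
    rw [ev_add, h1, add_zero]

theorem EM_splitq (hp2 : p ≠ 2) (hIND : S_IND) (hQS : S_QS) {D : ℕ} {h : (Mon n d → ZMod p) → ℝ}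
    (hd : Dep x D h) (hD : D + deg x ≤ d + 1)
    (k : ℕ) : EM p (fun c => zq x c ^ k * h c) = ebq ((p : ℝ) ^ deg x) k * EM p h := by
  obtain ⟨Y, hY, hYc⟩ := card_fix (p := p) (deg x) (deg_pos x)
  have h1 := hIND p n d D x h hd hD Y hY (fun y => qc p (deg x) y ^ k)
  rw [hQS p hp2 (deg x) (deg_pos x) Y hY k] at h1
  unfold zq
  rw [h1]
  have hp0 : (0 : ℝ) < (p : ℝ) ^ deg x := by
    have := hp.out.pos
    positivity
  field_simp

/-- The sum of the centred indicators over the points of degree `j` in `A`. -/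
noncomputable def SQ (A : Finset (NV p n)) (j : ℕ) (c : Mon n d → ZMod p) : ℝ :=
  ∑ x ∈ A with deg x = j, zq x c

theorem Dep_SQ (A : Finset (NV p n)) (hx : ∀ t ∈ A, ∀ i, Fr^[i] t ≠ x) (j : ℕ) :
    Dep (d := d) x j (SQ A j) := by
  unfold SQ
  refine Dep.sum _ _ fun t ht => ?_
  rw [Finset.mem_filter] at ht
  have h := dep_zq (d := d) (hx t ht.1)
  rw [ht.2] at h
  exact h

/-- **The joint moments.** -/
theorem EM_jointq (hp2 : p ≠ 2) (hIND : S_IND) (hQS : S_QS) (r : ℕ) (A : Finset (NV p n)) (hA : ∀ a ∈ A, ∀ b ∈ A, ∀ i, Fr^[i] a = b → a = b) :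
    ∀ a : ℕ → ℕ, ∑ j ∈ Icc 1 r, j * a j ≤ d + 1 →
    EM p (fun c : Mon n d → ZMod p => ∏ j ∈ Icc 1 r, SQ A j c ^ a j) =
      ∏ j ∈ Icc 1 r, ME (ebq ((p : ℝ) ^ j)) (A.filter fun x => deg x = j).card (a j) := by
  classical
  induction A using Finset.induction_on with
  | empty =>
    intro a _
    have e : (fun c : Mon n d → ZMod p => ∏ j ∈ Icc 1 r, SQ (∅ : Finset (NV p n)) j c ^ a j) =
        fun _ => ∏ j ∈ Icc 1 r, (if a j = 0 then (1 : ℝ) else 0) := by
      funext c
      refine Finset.prod_congr rfl fun j _ => ?_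
      unfold SQ
      rw [Finset.filter_empty, Finset.sum_empty]
      split_ifs with h
      · rw [h, pow_zero]
      · rw [zero_pow h]
    rw [e, EM_const']
    refine Finset.prod_congr rfl fun j _ => ?_
    rw [Finset.filter_empty, Finset.card_empty, ME]
  | insert x A hx ih =>
    intro a ha
    have ih' := ih fun a ha b hb => hA a (Finset.mem_insert_of_mem ha) b (Finset.mem_insert_of_mem hb)
    have hxA : ∀ t ∈ A, ∀ i, Fr^[i] t ≠ x := by
      intro t ht i hi
      have := hA t (Finset.mem_insert_of_mem ht) x (Finset.mem_insert_self _ _) i hi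
      rw [this] at ht
      exact hx ht
    obtain ⟨j0, hj0⟩ : ∃ j0, deg x = j0 := ⟨_, rfl⟩
    have hne : ∀ j, j ≠ j0 → (insert x A).filter (fun y => deg y = j) = A.filter fun y => deg y = j := by
      intro j hj
      rw [Finset.filter_insert, if_neg (by rw [hj0]; exact Ne.symm hj)]
    have hne' : ∀ j, j ≠ j0 → ∀ c : Mon n d → ZMod p, SQ (insert x A) j c = SQ A j c := by
      intro j hj c
      unfold SQ
      rw [hne j hj]
    by_cases hjr : j0 ∈ Icc 1 r
    · have hcard : ((insert x A).filter fun y => deg y = j0).card =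
          (A.filter fun y => deg y = j0).card + 1 := by
        rw [Finset.filter_insert, if_pos hj0, Finset.card_insert_of_notMem
          fun h => hx (Finset.mem_filter.1 h).1]
      have hSQ : ∀ c : Mon n d → ZMod p, SQ (insert x A) j0 c = zq x c + SQ A j0 c := by
        intro c
        unfold SQ
        rw [Finset.filter_insert, if_pos hj0, Finset.sum_insert
          fun h => hx (Finset.mem_filter.1 h).1]
      have hup : ∀ k, ∀ c : Mon n d → ZMod p,
          ∏ j ∈ Icc 1 r, SQ A j c ^ Function.update a j0 (a j0 - k) j =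
            SQ A j0 c ^ (a j0 - k) * ∏ j ∈ (Icc 1 r).erase j0, SQ A j c ^ a j := by
        intro k c
        rw [← Finset.mul_prod_erase _ _ hjr, Function.update_self]
        congr 1
        refine Finset.prod_congr rfl fun j hj => ?_
        rw [Function.update_of_ne (Finset.ne_of_mem_erase hj)]
      have e : (fun c : Mon n d → ZMod p => ∏ j ∈ Icc 1 r, SQ (insert x A) j c ^ a j) = fun c =>
          ∑ k ∈ range (a j0 + 1), ((a j0).choose k : ℝ) *
            (zq x c ^ k * ∏ j ∈ Icc 1 r, SQ A j c ^ Function.update a j0 (a j0 - k) j) := by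
        funext c
        rw [← Finset.mul_prod_erase _ _ hjr, hSQ, add_pow, Finset.sum_mul]
        refine Finset.sum_congr rfl fun k _ => ?_
        rw [hup, Finset.prod_congr rfl fun j hj => by rw [hne' j (Finset.ne_of_mem_erase hj)]]
        ring
      have hsum : ∀ k, k ≤ a j0 → ∑ j ∈ Icc 1 r, j * Function.update a j0 (a j0 - k) j + k * j0 =
          ∑ j ∈ Icc 1 r, j * a j := by
        intro k hk
        rw [← Finset.add_sum_erase _ _ hjr, Function.update_self, ← Finset.add_sum_erase _ _ hjr]
        have h1 : ∑ j ∈ (Icc 1 r).erase j0, j * Function.update a j0 (a j0 - k) j =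
            ∑ j ∈ (Icc 1 r).erase j0, j * a j := by
          refine Finset.sum_congr rfl fun j hj => ?_
          rw [Function.update_of_ne (Finset.ne_of_mem_erase hj)]
        rw [h1]
        obtain ⟨l, hl⟩ := Nat.exists_eq_add_of_le hk
        rw [hl, Nat.add_sub_cancel_left]
        ring
      rw [e, EM_sum', ← Finset.mul_prod_erase _ _ hjr, hcard, ME, Finset.sum_mul]
      refine Finset.sum_congr rfl fun k hk => ?_
      rw [Finset.mem_range] at hk
      rw [EM_mul']
      have h2 := ih' (Function.update a j0 (a j0 - k)) (by have := hsum k (by omega); omega)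
      have h3 : ∏ j ∈ Icc 1 r, ME (ebq ((p : ℝ) ^ j)) (A.filter fun x => deg x = j).card
          (Function.update a j0 (a j0 - k) j) =
          ME (ebq ((p : ℝ) ^ j0)) (A.filter fun x => deg x = j0).card (a j0 - k) *
          ∏ j ∈ (Icc 1 r).erase j0, ME (ebq ((p : ℝ) ^ j))
            ((insert x A).filter fun x => deg x = j).card (a j) := by
        rw [← Finset.mul_prod_erase _ _ hjr, Function.update_self]
        congr 1
        refine Finset.prod_congr rfl fun j hj => ?_
        rw [Function.update_of_ne (Finset.ne_of_mem_erase hj), hne j (Finset.ne_of_mem_erase hj)]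
      rcases Nat.eq_zero_or_pos k with rfl | hk0
      · have h4 : ebq ((p : ℝ) ^ j0) 0 = 1 := (adm_ebq (one_le_pow₀ (by
          exact_mod_cast hp.out.one_lt.le))).e0
        simp only [pow_zero, one_mul]
        rw [h2, h3, h4]
        ring
      · have h4 : Dep (d := d) x (∑ j ∈ Icc 1 r, j * Function.update a j0 (a j0 - k) j)
            fun c => ∏ j ∈ Icc 1 r, SQ A j c ^ Function.update a j0 (a j0 - k) j :=
          Dep.prod _ _ _ fun j _ => (Dep_SQ A hxA j).pow _
        have h5 : j0 ≤ k * j0 := Nat.le_mul_of_pos_left j0 hk0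
        rw [EM_splitq hp2 hIND hQS h4 (by have := hsum k (by omega); omega), h2, h3, hj0]
        ring
    · have hj : ∀ j ∈ Icc 1 r, j ≠ j0 := fun j hj h => hjr (h ▸ hj)
      have e : (fun c : Mon n d → ZMod p => ∏ j ∈ Icc 1 r, SQ (insert x A) j c ^ a j) = fun c =>
          ∏ j ∈ Icc 1 r, SQ A j c ^ a j := by
        funext c
        exact Finset.prod_congr rfl fun j hj' => by rw [hne' j (hj j hj')]
      rw [e, ih' a ha]
      exact Finset.prod_congr rfl fun j hj' => by rw [hne j (hj j hj')]



end Pool.Agent.K1H81.DC
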