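import Pool.Agent.K1H81.DC.Joint

/-!
# The mean values of polynomials in the main parts of the traces
-/

set_option autoImplicit false
set_option linter.unusedSectionVars false

namespace Pool.Agent.K1H81.DC

open Finset hiding val
open Pool.Agent.Y722.HS Pool.Agent.X280.HG Pool.Agent.X280.BP Pool.Agent.X280.UC Pool.Agent.K1H81.HV

section
variable {p : ℕ} [hp : Fact p.Prime] {n d : ℕ}

/-- The constant term. -/
noncomputable def muq (p : ℕ) [Fact p.Prime] (m k : ℕ) : ℝ :=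
  (∑ j ∈ k.divisors with Even (k / j), ((DD p (2 * m) j).card : ℝ)) / ((p : ℝ) ^ k) ^ m

theorem div_even {k l : ℕ} (hl : 0 < l) (hk : k = 2 * l) :
    k.divisors.filter (fun j => Even (k / j)) = l.divisors := by
  subst hk
  ext j
  rw [Finset.mem_filter, Nat.mem_divisors, Nat.mem_divisors]
  constructor
  · rintro ⟨⟨⟨a, ha⟩, -⟩, he⟩
    have hj : 0 < j := by
      rcases Nat.eq_zero_or_pos j with rfl | h
      · omega
      · exact h
    rw [ha, Nat.mul_div_cancel_left _ hj] at he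
    obtain ⟨b, hb⟩ := he
    refine ⟨⟨b, ?_⟩, by omega⟩
    rw [hb] at ha
    have : 2 * l = 2 * (j * b) := by rw [ha]; ring
    omega
  · rintro ⟨⟨a, ha⟩, -⟩
    have hj : 0 < j := by
      rcases Nat.eq_zero_or_pos j with rfl | h
      · omega
      · exact h
    refine ⟨⟨⟨2 * a, by rw [ha]; ring⟩, by omega⟩, ?_⟩
    rw [ha, show 2 * (j * a) = j * (2 * a) by ring, Nat.mul_div_cancel_left _ hj]
    exact even_two_mul a

theorem div_odd {k : ℕ} (hk : Odd k) : k.divisors.filter (fun j => Even (k / j)) = ∅ := by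
  rw [Finset.filter_eq_empty_iff]
  intro j hj he
  obtain ⟨hjk, -⟩ := Nat.mem_divisors.1 hj
  obtain ⟨a, ha⟩ := hjk
  have hj0 : 0 < j := Nat.pos_of_mem_divisors hj
  rw [ha, Nat.mul_div_cancel_left _ hj0] at he
  rw [ha] at hk
  exact (Nat.not_even_iff_odd.2 hk) (he.mul_left j)

theorem muq_asy (m k : ℕ) (hm : 1 ≤ m) (hk : 1 ≤ k) : |muq p m k - ev2 k| ≤ 2 / p := by
  have hp2 : (2 : ℝ) ≤ p := by exact_mod_cast hp.out.two_le
  have hp0 : (0 : ℝ) < p := by linarith
  have hp1 : (1 : ℝ) ≤ p := by linarith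
  unfold muq ev2
  rcases Nat.even_or_odd k with he | ho
  · obtain ⟨l, hl⟩ := he
    have hl0 : 0 < l := by omega
    rw [div_even hl0 (by omega), if_pos ⟨l, hl⟩, ← card_PF_div (p := p) (2 * m) l hl0,
      card_PF (2 * m) l hl0]
    obtain ⟨Q, hQ⟩ : ∃ Q : ℝ, (p : ℝ) ^ l = Q := ⟨_, rfl⟩
    have hkQ : ((p : ℝ) ^ k) ^ m = Q ^ (2 * m) := by
      rw [← hQ, hl, ← pow_mul, ← pow_mul]
      congr 1
      ring
    rw [hkQ, hQ]
    have hpQ : (p : ℝ) ≤ Q := by
      rw [← hQ]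
      calc (p : ℝ) = (p : ℝ) ^ 1 := (pow_one _).symm
        _ ≤ (p : ℝ) ^ l := pow_le_pow_right₀ hp1 hl0
    have hQ0 : 0 < Q := by linarith
    obtain ⟨t, ht⟩ : ∃ t, 2 * m = t + 1 := ⟨2 * m - 1, by omega⟩
    rw [ht, Finset.sum_range_succ, Finset.sum_range_succ]
    have h1 := geom_le (x := Q) (by linarith) t
    have h0 : 0 ≤ ∑ i ∈ range t, Q ^ i := Finset.sum_nonneg fun i _ => by positivity
    have hQt : 0 < Q ^ t := by positivity
    have e : (∑ i ∈ range t, Q ^ i + Q ^ t + Q ^ (t + 1)) / Q ^ (t + 1) - 1 =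
        (∑ i ∈ range t, Q ^ i + Q ^ t) / Q ^ (t + 1) := by
      field_simp
      ring
    rw [e, abs_of_nonneg (by positivity), div_le_div_iff₀ (by positivity) hp0, pow_succ]
    calc (∑ i ∈ range t, Q ^ i + Q ^ t) * p ≤ (Q ^ t + Q ^ t) * Q := by gcongr
      _ = 2 * (Q ^ t * Q) := by ring
  · rw [div_odd ho, Finset.sum_empty, zero_div, if_neg (Nat.not_even_iff_odd.2 ho), sub_zero, abs_zero]
    positivity

theorem tm_eq (hp2 : p ≠ 2) (hQP : S_QP) (m d : ℕ) (k : ℕ) (A : Finset (NV p (2 * m)))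
    (hA : ∀ j ∈ k.divisors, ∀ f : NV p (2 * m) → ℝ, (∀ v, f (Fr v) = f v) →
      ∑ v ∈ DD p (2 * m) j, f v = j * ∑ x ∈ A with deg x = j, f x)
    (c : Mon (2 * m) d → ZMod p) :
    tm m d p k c = ∑ j ∈ k.divisors, (if Odd (k / j) then j * SQ A j c / ((p : ℝ) ^ k) ^ m else 0) +
      muq p m k := by
  classical
  have h2 : ∀ j ∈ k.divisors, ∑ v ∈ DD p (2 * m) j, qc p j (ev c v) = j * SQ A j c := by
    intro j hj
    have h3 := hA j hj (fun v => zq v c) (fun v => zq_Fr hp2 hQP v c)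
    have h4 : ∑ v ∈ DD p (2 * m) j, qc p j (ev c v) = ∑ v ∈ DD p (2 * m) j, zq v c := by
      refine Finset.sum_congr rfl fun v hv => ?_
      unfold zq
      rw [mem_DD.1 hv]
    rw [h4, h3]
    rfl
  unfold tm muq
  rw [add_div, ← Finset.sum_filter, Finset.sum_div]
  congr 1
  refine Finset.sum_congr rfl fun j hj => ?_
  rw [h2 j (Finset.mem_filter.1 hj).1]

end

theorem sitq (hQS : S_QS) (hQP : S_QP) (hIND : S_IND) (hONE : S_ONE) (r : ℕ) :
    ∃ C : (ℕ → ℕ) → ℝ, ∀ (m d : ℕ), 1 ≤ m → ∀ (p : ℕ) [Fact p.Prime], p ≠ 2 →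
    ∃ s : ℕ → (Mon (2 * m) d → ZMod p) → ℝ,
    Sit r (5 + 4 * r) C (Mon (2 * m) d → ZMod p) (EM p) s (tm m d p) (1 / p) (d + 1) := by
  classical
  -- constants for one degree
  have h1 : ∀ j b : ℕ, ∃ C : ℝ, 0 ≤ C ∧ (1 ≤ j → ∀ (m : ℕ), 1 ≤ m → ∀ p : ℝ, 2 ≤ p → ∀ N : ℕ,
      |(j * N : ℝ) - (p ^ j) ^ (2 * m)| ≤ (2 + 2 * j) * (p ^ j) ^ (2 * m) / p →
      |√j ^ b * ME (ebq (p ^ j)) N b / ((p ^ j) ^ m) ^ b - gm b| ≤ C / p) := by
    intro j b
    by_cases hj : 1 ≤ j
    · obtain ⟨C, hC0, hC⟩ := hONE j b hj (2 + 2 * j) (by positivity)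
      exact ⟨C, hC0, fun _ => hC⟩
    · exact ⟨0, le_rfl, fun h => absurd h hj⟩
  choose C0 hC00 hC0 using h1
  choose C hCn hC using fun b : ℕ → ℕ => prod_approx (Icc 1 r) (fun j => gm (b j))
    (fun j => C0 j (b j)) fun j => hC00 j (b j)
  refine ⟨C, fun m d hm p hpf hpne => ?_⟩
  obtain ⟨A, hA1, hA2⟩ := exists_A p (2 * m) r
  have hp2 : (2 : ℝ) ≤ p := by exact_mod_cast hpf.out.two_le
  have hp0 : (0 : ℝ) < p := by linarith
  have hp1 : (1 : ℝ) ≤ p := by linarith
  refine ⟨fun j c => √j * SQ A j c / ((p : ℝ) ^ j) ^ m, EM_add' p, EM_mul' p, by positivity, ?_,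
    fun k hk => ?_, fun b hb => ?_⟩
  · rw [div_le_one hp0]
    exact hp1
  · -- the representation
    rw [Finset.mem_Icc] at hk
    have hsub : ∀ j ∈ k.divisors, j ∈ Icc 1 r := by
      intro j hj
      have h2 := Nat.divisor_le hj
      have h3 := Nat.pos_of_mem_divisors hj
      rw [Finset.mem_Icc]
      omega
    refine ⟨fun j => if Odd (k / j) then √j * ((p : ℝ) ^ j) ^ m / ((p : ℝ) ^ k) ^ m else 0,
      muq p m k, fun j hj => ?_, ?_, fun c => ?_⟩
    · obtain ⟨hjk, hlt⟩ := Nat.mem_properDivisors.1 hj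
      have hj1 : 1 ≤ j := Nat.pos_of_dvd_of_pos hjk (by omega)
      have h2 : √(j : ℝ) ≤ j := by
        rw [Real.sqrt_le_left (by positivity)]
        have : (1 : ℝ) ≤ j := by exact_mod_cast hj1
        nlinarith
      have h3 : (j : ℝ) ≤ r := by
        have : j ≤ r := by omega
        exact_mod_cast this
      have h4 : ((p : ℝ) ^ j) ^ m * p ≤ ((p : ℝ) ^ k) ^ m := by
        rw [← pow_mul, ← pow_mul, ← pow_succ]
        refine pow_le_pow_right₀ hp1 ?_
        nlinarith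
      have h5 : 0 < ((p : ℝ) ^ k) ^ m := by positivity
      have hr0 : (0 : ℝ) ≤ r := Nat.cast_nonneg _
      beta_reduce
      split_ifs
      · rw [abs_of_nonneg (by positivity), mul_one_div, div_le_div_iff₀ h5 hp0]
        calc √(j : ℝ) * ((p : ℝ) ^ j) ^ m * p = √(j : ℝ) * (((p : ℝ) ^ j) ^ m * p) := by ring
          _ ≤ (5 + 4 * (r : ℝ)) * ((p : ℝ) ^ k) ^ m := by
              gcongr
              linarith
      · rw [abs_zero]
        positivity
    · refine (muq_asy m k hm hk.1).trans ?_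
      rw [mul_one_div]
      have hr0 : (0 : ℝ) ≤ r := Nat.cast_nonneg _
      gcongr
      linarith
    · rw [tm_eq hpne hQP m d k A (fun j hj => hA2 j (hsub j hj)) c,
        ← Nat.cons_self_properDivisors (by omega : k ≠ 0), Finset.sum_cons]
      congr 2
      · rw [Nat.div_self (by omega), if_pos odd_one]
        have h2 : √(k : ℝ) * √(k : ℝ) = k := Real.mul_self_sqrt (Nat.cast_nonneg _)
        rw [mul_div_assoc', ← mul_assoc, h2]
      · refine Finset.sum_congr rfl fun j hj => ?_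
        beta_reduce
        by_cases ho : Odd (k / j)
        · rw [if_pos ho, if_pos ho]
          have h2 : √(j : ℝ) * √(j : ℝ) = j := Real.mul_self_sqrt (Nat.cast_nonneg _)
          have h3 : 0 < ((p : ℝ) ^ j) ^ m := by positivity
          have h4 : 0 < ((p : ℝ) ^ k) ^ m := by positivity
          have e : √(j : ℝ) * ((p : ℝ) ^ j) ^ m / ((p : ℝ) ^ k) ^ m *
              (√(j : ℝ) * SQ A j c / ((p : ℝ) ^ j) ^ m) =
              (√(j : ℝ) * √(j : ℝ)) * SQ A j c / ((p : ℝ) ^ k) ^ m := by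
            field_simp
          rw [e, h2]
        · rw [if_neg ho, if_neg ho, zero_mul]
  · -- the moments
    have e1 : (fun c : Mon (2 * m) d → ZMod p =>
        ∏ j ∈ Icc 1 r, (√(j : ℝ) * SQ A j c / ((p : ℝ) ^ j) ^ m) ^ b j) = fun c =>
        (∏ j ∈ Icc 1 r, (√(j : ℝ) / ((p : ℝ) ^ j) ^ m) ^ b j) * ∏ j ∈ Icc 1 r, SQ A j c ^ b j := by
      funext c
      rw [← Finset.prod_mul_distrib]
      refine Finset.prod_congr rfl fun j _ => ?_
      rw [← mul_pow]
      congr 1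
      ring
    rw [e1, EM_mul', EM_jointq hpne hIND hQS r A hA1 b hb, ← Finset.prod_mul_distrib]
    refine hC b (1 / p) (by positivity) (by rw [div_le_one hp0]; exact hp1) _ fun j hj => ?_
    have hj1 := (Finset.mem_Icc.1 hj).1
    have h2 : (j * ((A.filter fun x => deg x = j).card : ℝ)) = ((DD p (2 * m) j).card : ℝ) := by
      have h3 := hA2 j hj (fun _ => 1) fun _ => rfl
      simp only [Finset.sum_const, nsmul_eq_mul, mul_one] at h3
      exact h3.symm
    have h4 := hC0 j (b j) hj1 m hm p hp2 (A.filter fun x => deg x = j).card (by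
      rw [h2]
      exact DD_asy j (2 * m) hj1 (by omega))
    rw [mul_one_div]
    refine le_trans (le_of_eq ?_) h4
    congr 2
    rw [div_pow]
    ring

/-- **The mean value of a polynomial in the main parts.** -/
theorem t_MV (hQS : S_QS) (hQP : S_QP) (hIND : S_IND) (hONE : S_ONE) : S_MV := by
  classical
  intro r D φ hD
  obtain ⟨C0, hC0⟩ := sitq hQS hQP hIND hONE r
  choose C hCn hC using fun α : Fin r →₀ ℕ => mixed r (5 + 4 * r) (by positivity) C0 _ (ext α) 0 rfl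
  refine ⟨∑ α ∈ φ.support, |φ.coeff α| * C α,
    Finset.sum_nonneg fun α _ => mul_nonneg (abs_nonneg _) (hCn α), fun m d hm hd p hpf hpne => ?_⟩
  obtain ⟨s, hs⟩ := hC0 m d hm p hpne
  simp only [eval_sum]
  rw [mean_eq, EM_sum', ← Finset.sum_sub_distrib, Finset.sum_div]
  refine (Finset.abs_sum_le_sum_abs _ _).trans (Finset.sum_le_sum fun α hα => ?_)
  rw [EM_mul', ← mul_sub, abs_mul, mul_div_assoc]
  refine mul_le_mul_of_nonneg_left ?_ (abs_nonneg _)
  have h1 := hC α _ (EM p) s (tm m d p) (1 / p) (d + 1) hs (by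
    refine le_trans (le_of_eq ?_) ((hD α hα).trans hd)
    rw [sum_Icc_fin]
    refine Finset.sum_congr rfl fun i _ => ?_
    rw [ext_succ, Pi.zero_apply, add_zero])
  rw [mul_one_div] at h1
  refine le_trans (le_of_eq ?_) h1
  congr 2
  congr 1
  funext c
  rw [prod_Icc_fin r (fun k => tm m d p k c ^ ext α k), prod_Icc_fin r (fun k => s k c ^ (0 : ℕ → ℕ) k)]
  simp only [ext_succ, Pi.zero_apply, pow_zero, Finset.prod_const_one, mul_one]

end Pool.Agent.K1H81.DC
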