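import Pool.Agent.K1H81.DC.Mv

/-!
# The traces and their main parts
-/

set_option autoImplicit false
set_option linter.unusedSectionVars false

namespace Pool.Agent.K1H81.DC

open Finset hiding val
open Pool.Agent.Y722.HS Pool.Agent.X280.HG Pool.Agent.X280.BP Pool.Agent.X280.UC Pool.Agent.K1H81.HV

section
variable {p : ℕ} [hp : Fact p.Prime] {n d : ℕ}

theorem qc_cases (k : ℕ) (y : KK p) : qc p k y = 0 ∧ y = 0 ∨ (qc p k y = 1 ∨ qc p k y = -1) ∧ y ≠ 0 := by
  unfold qc
  split_ifs with h1 h2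
  · exact Or.inl ⟨rfl, h1⟩
  · exact Or.inr ⟨Or.inl rfl, h1⟩
  · exact Or.inr ⟨Or.inr rfl, h1⟩

open Classical in
theorem tq_sub_tm (hp2 : p ≠ 2) (hQP : S_QP) (m d k : ℕ) (hk : 0 < k)
    (c : Mon (2 * m) d → ZMod p) :
    tq m d p k c - tm m d p k c = -(∑ j ∈ k.divisors with Even (k / j),
      (((DD p (2 * m) j).filter fun v => ev c v = 0).card : ℝ)) / ((p : ℝ) ^ k) ^ m := by
  have h1 : ∀ j ∈ k.divisors, ∀ v ∈ DD p (2 * m) j,
      qc p k (ev c v) = qc p j (ev c v) ^ (k / j) := by
    intro j hj v hv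
    have hjk := (Nat.mem_divisors.1 hj).1
    have hj0 : 0 < j := Nat.pos_of_mem_divisors hj
    have hl : 0 < k / j := Nat.div_pos (Nat.le_of_dvd hk hjk) hj0
    have h2 := (hQP p hp2 j hj0 (ev c v) (by
      have := ev_fix c v
      rwa [mem_DD.1 hv] at this)).1 (k / j) hl
    rwa [Nat.mul_div_cancel' hjk] at h2
  have h3 : ∑ v ∈ PF p (2 * m) k, qc p k (ev c v) =
      ∑ j ∈ k.divisors with Odd (k / j), ∑ v ∈ DD p (2 * m) j, qc p j (ev c v) +
      ∑ j ∈ k.divisors with ¬ Odd (k / j), (((DD p (2 * m) j).card : ℝ) -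
        (((DD p (2 * m) j).filter fun v => ev c v = 0).card : ℝ)) := by
    rw [sum_PF k hk, ← Finset.sum_filter_add_sum_filter_not k.divisors (fun j => Odd (k / j))]
    congr 1
    · refine Finset.sum_congr rfl fun j hj => Finset.sum_congr rfl fun v hv => ?_
      obtain ⟨hj1, ho⟩ := Finset.mem_filter.1 hj
      rw [h1 j hj1 v hv]
      rcases qc_cases j (ev c v) with ⟨h, -⟩ | ⟨h | h, -⟩
      · rw [h, zero_pow ho.pos.ne']
      · rw [h, one_pow]
      · rw [h, ho.neg_one_pow]
    · refine Finset.sum_congr rfl fun j hj => ?_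
      obtain ⟨hj1, ho⟩ := Finset.mem_filter.1 hj
      have he : Even (k / j) := Nat.not_odd_iff_even.1 ho
      have hj0 : 0 < j := Nat.pos_of_mem_divisors hj1
      have hl : 0 < k / j := Nat.div_pos (Nat.le_of_dvd hk (Nat.mem_divisors.1 hj1).1) hj0
      have h4 : ∀ v ∈ DD p (2 * m) j, qc p k (ev c v) = 1 - (if ev c v = 0 then (1 : ℝ) else 0) := by
        intro v hv
        rw [h1 j hj1 v hv]
        rcases qc_cases j (ev c v) with ⟨h, h0⟩ | ⟨h | h, h0⟩
        · rw [h, zero_pow hl.ne', if_pos h0, sub_self]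
        · rw [h, one_pow, if_neg h0, sub_zero]
        · rw [h, he.neg_one_pow, if_neg h0, sub_zero]
      rw [Finset.sum_congr rfl h4, Finset.sum_sub_distrib, Finset.sum_boole, Finset.sum_const,
        nsmul_eq_mul, mul_one]
  have h5 : k.divisors.filter (fun j => ¬ Odd (k / j)) = k.divisors.filter (fun j => Even (k / j)) :=
    Finset.filter_congr fun j _ => Nat.not_odd_iff_even
  rw [h5, Finset.sum_sub_distrib] at h3
  unfold tq tm
  rw [h3, ← sub_div]
  congr 1
  ring

end

theorem t_NEAR (hQP : S_QP) (hZC : S_ZC) : S_NEAR := by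
  classical
  intro m d r hm
  obtain ⟨C0, hC00, hC0⟩ := hZC (2 * m) d (by omega)
  refine ⟨C0 + 2, by positivity, fun p hpf hp2 k hk c => ?_⟩
  rw [Finset.mem_Icc] at hk
  have hpr : (2 : ℝ) ≤ p := by exact_mod_cast hpf.out.two_le
  have hp0 : (0 : ℝ) < p := by linarith
  have hp1 : (1 : ℝ) ≤ p := by linarith
  -- the numbers
  have hZ : 0 ≤ ∑ j ∈ k.divisors with Even (k / j),
      (((DD p (2 * m) j).filter fun v => ev c v = 0).card : ℝ) :=
    Finset.sum_nonneg fun j _ => Nat.cast_nonneg _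
  have hD : ((p : ℝ) ^ k) ^ m > 0 := by positivity
  have hmu : |muq p m k| ≤ 2 := by
    have h1 := muq_asy (p := p) m k hm hk.1
    have h2 : (2 : ℝ) / p ≤ 1 := by rw [div_le_one hp0]; exact hpr
    have h3 : |ev2 k| ≤ 1 := ev2_abs k
    have h4 : |muq p m k| ≤ |muq p m k - ev2 k| + |ev2 k| := by
      have := abs_add_le (muq p m k - ev2 k) (ev2 k)
      rwa [sub_add_cancel] at this
    linarith
  have hmu0 : 0 ≤ muq p m k := by
    unfold muq
    positivity
  have htriv : (∑ j ∈ k.divisors with Even (k / j),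
      (((DD p (2 * m) j).filter fun v => ev c v = 0).card : ℝ)) / ((p : ℝ) ^ k) ^ m ≤ 2 := by
    refine le_trans ?_ (le_trans (le_abs_self _) hmu)
    unfold muq
    refine div_le_div_of_nonneg_right (Finset.sum_le_sum fun j _ => ?_) hD.le
    exact_mod_cast Finset.card_filter_le _ _
  refine ⟨?_, fun hc => ?_⟩
  · rw [tq_sub_tm hp2 hQP m d k hk.1 c, neg_div, abs_neg, abs_of_nonneg (div_nonneg hZ hD.le)]
    by_cases hc : c = 0
    · rw [if_pos hc, mul_one]
      linarith
    · rw [if_neg hc, mul_one_div]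
      rcases Nat.even_or_odd k with he | ho
      · obtain ⟨l, hl⟩ := he
        have hl0 : 0 < l := by omega
        rw [div_even hl0 (by omega)]
        have h1 : ∑ j ∈ l.divisors, (((DD p (2 * m) j).filter fun v => ev c v = 0).card : ℝ) =
            (((PF p (2 * m) l).filter fun v => ev c v = 0).card : ℝ) := by
          have h2 := sum_PF (p := p) (n := 2 * m) l hl0 fun v => if ev c v = 0 then (1 : ℝ) else 0
          rw [Finset.sum_boole] at h2
          rw [h2]
          exact Finset.sum_congr rfl fun j _ => by rw [Finset.sum_boole]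
        rw [h1]
        have h3 := hC0 p l hl0 c hc
        obtain ⟨Q, hQ⟩ : ∃ Q : ℝ, (p : ℝ) ^ l = Q := ⟨_, rfl⟩
        have hkQ : ((p : ℝ) ^ k) ^ m = Q ^ (2 * m - 1) * Q := by
          rw [← hQ, hl, ← pow_succ, show 2 * m - 1 + 1 = 2 * m by omega, ← pow_mul, ← pow_mul]
          congr 1
          ring
        rw [hQ] at h3
        have hpQ : (p : ℝ) ≤ Q := by
          rw [← hQ]
          calc (p : ℝ) = (p : ℝ) ^ 1 := (pow_one _).symm
            _ ≤ (p : ℝ) ^ l := pow_le_pow_right₀ hp1 hl0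
        have hQ0 : 0 < Q := by linarith
        have hQm : 0 < Q ^ (2 * m - 1) := by positivity
        rw [hkQ, div_le_div_iff₀ (by positivity) hp0]
        calc _ ≤ C0 * Q ^ (2 * m - 1) * p := by gcongr
          _ ≤ C0 * Q ^ (2 * m - 1) * Q := by gcongr
          _ = C0 * (Q ^ (2 * m - 1) * Q) := by ring
          _ ≤ (C0 + 2) * (Q ^ (2 * m - 1) * Q) := by gcongr; linarith
      · rw [div_odd ho, Finset.sum_empty, zero_div]
        positivity
  · have h1 : tm m d p k c = muq p m k := by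
      unfold tm muq
      have h2 : ∑ j ∈ k.divisors with Odd (k / j), ∑ v ∈ DD p (2 * m) j, qc p j (ev c v) = 0 := by
        refine Finset.sum_eq_zero fun j _ => Finset.sum_eq_zero fun v _ => ?_
        have h3 : ev c v = 0 := by
          rw [hc]
          have h4 := ev_add (0 : Mon (2 * m) d → ZMod p) 0 v
          rw [add_zero] at h4
          exact left_eq_add.1 h4
        rw [h3]
        unfold qc
        rw [if_pos rfl]
      rw [h2, zero_add]
    rw [h1]
    linarith

end Pool.Agent.K1H81.DC
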